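import Pool.Agent.Helper57.WAC.Homeo

open Polynomial

namespace Pool.Agent.Results.MP_6855fb_an.CodimOne

/-- `R` is weakly algebraically closed: every monic polynomial over `R` of degree larger than one
whose discriminant is invertible is a product of two monic polynomials over `R` of positive
degree. -/
def WeaklyAlgebraicallyClosed (R : Type) [CommRing R] : Prop :=
  ∀ p : R[X], p.Monic → 1 < p.natDegree → IsUnit p.discr →
    ∃ q r : R[X], q.Monic ∧ r.Monic ∧ 0 < q.natDegree ∧ 0 < r.natDegree ∧ p = q * r

/-- The maximal ideal space of a commutative unital complex algebra: its characters, that is, the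
unital algebra homomorphisms to `ℂ`. -/
def MaxIdealSpace (R : Type) [CommRing R] [Algebra ℂ R] : Type := R →ₐ[ℂ] ℂ

/-- The Gelfand topology: the topology of pointwise convergence on `R`. -/
noncomputable instance MaxIdealSpace.gelfandTopology (R : Type) [CommRing R] [Algebra ℂ R] :
    TopologicalSpace (MaxIdealSpace R) :=
  TopologicalSpace.induced (fun (χ : R →ₐ[ℂ] ℂ) (a : R) => χ a) inferInstance

/-- The maximal ideal space is connected. -/
def ConnectedMaxIdealSpace (R : Type) [CommRing R] [Algebra ℂ R] : Prop :=
  ConnectedSpace (MaxIdealSpace R)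

/-- Restriction of characters along `i : R → S`: the character `χ` of `S` goes to `χ ∘ i`. -/
def restrictCharacter {R S : Type} [CommRing R] [Algebra ℂ R] [CommRing S] [Algebra ℂ S]
    (i : R →ₐ[ℂ] S) (χ : MaxIdealSpace S) : MaxIdealSpace R := AlgHom.comp χ i

/-- Restriction of characters along `i` is a homeomorphism of the maximal ideal spaces. -/
def RestrictionIsHomeomorphism {R S : Type} [CommRing R] [Algebra ℂ R] [CommRing S] [Algebra ℂ S]
    (i : R →ₐ[ℂ] S) : Prop := IsHomeomorph (restrictCharacter i)

/-- The image of `i` has codimension one: the complex vector space `S / i(R)` has dimension one. -/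
def CodimensionOne {R S : Type} [CommRing R] [Algebra ℂ R] [CommRing S] [Algebra ℂ S]
    (i : R →ₐ[ℂ] S) : Prop :=
  Module.finrank ℂ (S ⧸ LinearMap.range i.toLinearMap) = 1

/-- A uniform algebra on the compact space `X`: a closed subalgebra of `C(X)` (it contains
the constants) separating the points of `X`. -/
structure UniformAlgebra (X : Type) [TopologicalSpace X] [CompactSpace X] where
  /-- the subalgebra -/
  alg : Subalgebra ℂ C(X, ℂ)
  /-- it is closed -/
  closed : IsClosed (alg : Set C(X, ℂ))
  /-- it separates the points -/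
  separates : alg.SeparatesPoints

variable {X : Type} [TopologicalSpace X] [CompactSpace X]

/-- `A` is weakly algebraically closed. -/
def UniformAlgebra.WAC (A : UniformAlgebra X) : Prop := WeaklyAlgebraicallyClosed A.alg

/-- The maximal ideal space of `A` is connected. -/
def UniformAlgebra.Conn (A : UniformAlgebra X) : Prop := ConnectedMaxIdealSpace A.alg

/-- `A ⊂ B` have the same maximal ideal space: restriction of characters is a homeomorphism. -/
def SameMaxIdealSpace (A B : UniformAlgebra X) (h : A.alg ≤ B.alg) : Prop :=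
  RestrictionIsHomeomorphism (Subalgebra.inclusion h)

/-- `dim B / A = 1` for `A ⊂ B`. -/
def Codim (A B : UniformAlgebra X) (h : A.alg ≤ B.alg) : Prop :=
  CodimensionOne (Subalgebra.inclusion h)

open H57WAC

theorem result : ∃ (X : Type) (_ : TopologicalSpace X) (_ : CompactSpace X) (_ : T2Space X)
    (A B : UniformAlgebra X) (h : A.alg ≤ B.alg),
    SameMaxIdealSpace A B h ∧ A.Conn ∧ B.Conn ∧ Codim A B h ∧ A.WAC ∧ ¬ B.WAC := by
  obtain ⟨X, iT, iC, iH, κ, hκ⟩ := exists_quot D0
  obtain ⟨ν, g, hB, hA⟩ := exists_step hκ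
  have chB := hκ.chars ν
  have chA := hκ.chars (Function.update ν g (ν g + 1))
  obtain ⟨εB, hεB⟩ := exists_homeo' (CB D0 κ ν) chB.1 chB.2
    (MaxIdealSpace (CB D0 κ ν)) (Equiv.refl _) ⟨rfl⟩
  obtain ⟨εA, hεA⟩ := exists_homeo' (CB D0 κ (Function.update ν g (ν g + 1))) chA.1 chA.2
    (MaxIdealSpace (CB D0 κ (Function.update ν g (ν g + 1)))) (Equiv.refl _) ⟨rfl⟩
  have hconn : ConnectedSpace X := hκ.connected
  refine ⟨X, iT, iC, iH, ⟨CB D0 κ (Function.update ν g (ν g + 1)), isClosed_CB κ _,
    separatesPoints_of _ chA.2⟩, ⟨CB D0 κ ν, isClosed_CB κ _, separatesPoints_of _ chB.2⟩,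
    CB_mono κ (le_update ν g), ?_, εA.surjective.connectedSpace εA.continuous,
    εB.surjective.connectedSpace εB.continuous, hκ.codim' ν g, hA, hB⟩
  have key : restrictCharacter (Subalgebra.inclusion (CB_mono κ (le_update ν g)))
      = εB.symm.trans εA := by
    funext χ
    obtain ⟨ξ, rfl⟩ := εB.surjective χ
    change _ = εA (εB.symm (εB ξ))
    rw [εB.symm_apply_apply]
    apply AlgHom.ext
    intro F
    refine Eq.trans ?_ (hεA ξ F).symm
    exact hεB ξ _
  change IsHomeomorph (restrictCharacter (Subalgebra.inclusion (CB_mono κ (le_update ν g))))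
  rw [key]
  exact (εB.symm.trans εA).isHomeomorph

end Pool.Agent.Results.MP_6855fb_an.CodimOne
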