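import Pool.Agent.Helper57.WAC.Homeo

open Polynomial

namespace Pool.Agent.Results.MP_6855fb_an.GelfandSpace

/-- `R` is weakly algebraically closed: every monic polynomial over `R` of degree larger than one
whose discriminant is invertible is a product of two monic polynomials over `R` of positive
degree. -/
def WeaklyAlgebraicallyClosed (R : Type) [CommRing R] : Prop :=
  ∀ p : R[X], p.Monic → 1 < p.natDegree → IsUnit p.discr →
    ∃ q r : R[X], q.Monic ∧ r.Monic ∧ 0 < q.natDegree ∧ 0 < r.natDegree ∧ p = q * r

/-- The maximal ideal space of a commutative unital complex algebra: its characters, that is, the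
unital algebra homomorphisms to `ℂ`. -/
def MaxIdealSpace (R : Type) [CommRing R] [Algebra ℂ R] : Type := R →ₐ[ℂ] ℂ

/-- The Gelfand topology: the topology of pointwise convergence on `R`. -/
noncomputable instance MaxIdealSpace.gelfandTopology (R : Type) [CommRing R] [Algebra ℂ R] :
    TopologicalSpace (MaxIdealSpace R) :=
  TopologicalSpace.induced (fun (χ : R →ₐ[ℂ] ℂ) (a : R) => χ a) inferInstance

/-- The maximal ideal space is connected. -/
def ConnectedMaxIdealSpace (R : Type) [CommRing R] [Algebra ℂ R] : Prop :=
  ConnectedSpace (MaxIdealSpace R)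

/-- The algebra `C(M)` of continuous complex functions on the maximal ideal space `M` of `R` is
weakly algebraically closed. -/
def ContinuousFunctionsWAC (R : Type) [CommRing R] [Algebra ℂ R] : Prop :=
  WeaklyAlgebraicallyClosed C(MaxIdealSpace R, ℂ)

/-- A uniform algebra on the compact space `X`: a closed subalgebra of `C(X)` (it contains
the constants) separating the points of `X`. -/
structure UniformAlgebra (X : Type) [TopologicalSpace X] [CompactSpace X] where
  /-- the subalgebra -/
  alg : Subalgebra ℂ C(X, ℂ)
  /-- it is closed -/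
  closed : IsClosed (alg : Set C(X, ℂ))
  /-- it separates the points -/
  separates : alg.SeparatesPoints

open H57WAC

theorem result : ∃ (X : Type) (_ : TopologicalSpace X) (_ : CompactSpace X) (_ : T2Space X)
    (A : UniformAlgebra X), ConnectedMaxIdealSpace A.alg ∧
    WeaklyAlgebraicallyClosed A.alg ∧ ¬ ContinuousFunctionsWAC A.alg := by
  obtain ⟨X, iT, iC, iH, κ, hκ⟩ := exists_quot D0
  obtain ⟨N, hN⟩ := wac_of_large D0
  have hA := hN (fun _ => N) (fun _ => le_rfl) _ (hκ.model (fun _ => N))
  have chA := hκ.chars (fun _ => N)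
  obtain ⟨εA, hεA⟩ := exists_homeo' (CB D0 κ (fun _ => N)) chA.1 chA.2
    (MaxIdealSpace (CB D0 κ (fun _ => N))) (Equiv.refl _) ⟨rfl⟩
  have hconn : ConnectedSpace X := hκ.connected
  exact ⟨X, iT, iC, iH, ⟨CB D0 κ (fun _ => N), isClosed_CB κ _, separatesPoints_of _ chA.2⟩,
    εA.surjective.connectedSpace εA.continuous, hA, not_wac_CM hκ εA⟩

end Pool.Agent.Results.MP_6855fb_an.GelfandSpace
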